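import Mathlib

open Finset

set_option autoImplicit false

namespace Pool.Agent.Results.MP_9b64ae_co.SilverMean

/-- `S(u)_n = u_n + u_{n+1} mod 2` -/
def S (u : ℕ → ZMod 2) : ℕ → ZMod 2 := fun n => u n + u (n + 1)

/-- the factor `v_i v_{i+1} ... v_{i+n-1}` -/
def factor (v : ℕ → ZMod 2) (i n : ℕ) : List (ZMod 2) := (List.range n).map (fun j => v (i + j))

/-- a Sturmian word has exactly `n + 1` factors of each length `n` -/
def Sturmian (u : ℕ → ZMod 2) : Prop := ∀ n, Set.ncard {w | ∃ i, w = factor u i n} = n + 1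

/-- number of distinct palindromic factors (the empty one included) of a finite word -/
noncomputable def palCount (w : List (ZMod 2)) : ℕ := Set.ncard {p | p <:+: w ∧ p.reverse = p}

/-- an infinite word is rich if each factor of length `n` has `n + 1` palindromic factors -/
def Rich (v : ℕ → ZMod 2) : Prop := ∀ i n, palCount (factor v i n) = n + 1

/-! ### counting palindromes -/

def pals (w : List (ZMod 2)) : List (List (ZMod 2)) :=
  ((w.tails.flatMap List.inits).filter (fun p => p.reverse = p)).dedup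

lemma palCount_le (w : List (ZMod 2)) : palCount w ≤ (pals w).length := by
  unfold palCount
  have h : {p | p <:+: w ∧ p.reverse = p} ⊆ ((pals w).toFinset : Set (List (ZMod 2))) := by
    rintro p ⟨h1, h2⟩
    rw [List.coe_toFinset]
    simp only [pals, Set.mem_ofPred_eq, List.mem_dedup, List.mem_filter, List.mem_flatMap,
      List.mem_tails, List.mem_inits, decide_eq_true_eq]
    obtain ⟨s, r, hsr⟩ := h1
    exact ⟨⟨p ++ r, ⟨s, by rw [← hsr, List.append_assoc]⟩, ⟨r, rfl⟩⟩, h2⟩
  calc Set.ncard {p | p <:+: w ∧ p.reverse = p}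
      ≤ Set.ncard ((pals w).toFinset : Set (List (ZMod 2))) :=
        Set.ncard_le_ncard h (Finset.finite_toSet _)
    _ = (pals w).toFinset.card := Set.ncard_coe_finset _
    _ ≤ (pals w).length := List.toFinset_card_le _

/-! ### the word -/

/-- `r i = ⌊i √2⌋` -/
def r (i : ℕ) : ℕ := Nat.sqrt (2 * i ^ 2)

/-- the Sturmian word `u_i = ⌊(i+1) (√2 - 1)⌋ - ⌊i (√2 - 1)⌋` -/
def u (i : ℕ) : ZMod 2 := if r (i + 1) = r i + 2 then 1 else 0

/-- fractional part of `i √2` -/
noncomputable def x (i : ℕ) : ℝ := i * √2 - r i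

lemma sqrt_two_bounds : (1.4 : ℝ) < √2 ∧ √2 < 1.5 := by
  constructor
  · exact Real.lt_sqrt_of_sq_lt (by norm_num)
  · rw [Real.sqrt_lt' (by norm_num)]; norm_num

lemma r_bounds (i : ℕ) : (r i : ℝ) ≤ i * √2 ∧ (i : ℝ) * √2 < r i + 1 := by
  have h : Real.sqrt ((2 * i ^ 2 : ℕ) : ℝ) = i * √2 := by
    push_cast
    rw [Real.sqrt_mul (by norm_num), Real.sqrt_sq (by positivity), mul_comm]
  have h1 : (r i : ℕ) = ⌊(i : ℝ) * √2⌋₊ := by
    rw [← h, Real.nat_floor_real_sqrt_eq_nat_sqrt]
    rfl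
  rw [h1]
  exact ⟨Nat.floor_le (by positivity), Nat.lt_floor_add_one _⟩

lemma x_nonneg (i : ℕ) : 0 ≤ x i := by unfold x; linarith [(r_bounds i).1]

lemma x_lt_one (i : ℕ) : x i < 1 := by unfold x; linarith [(r_bounds i).2]

lemma r_succ (i : ℕ) : r (i + 1) = r i + 1 ∨ r (i + 1) = r i + 2 := by
  obtain ⟨a1, a2⟩ := r_bounds i
  obtain ⟨b1, b2⟩ := r_bounds (i + 1)
  obtain ⟨c1, c2⟩ := sqrt_two_bounds
  push_cast at b1 b2
  have h1 : (r i : ℝ) < r (i + 1) := by nlinarith
  have h2 : (r (i + 1) : ℝ) < r i + 3 := by nlinarith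
  have h1' : r i < r (i + 1) := by exact_mod_cast h1
  have h2' : r (i + 1) < r i + 3 := by exact_mod_cast h2
  omega

lemma r_add (i j : ℕ) : r (i + j) = r i + r j + (if 1 ≤ x i + x j then 1 else 0) := by
  obtain ⟨a1, a2⟩ := r_bounds i
  obtain ⟨b1, b2⟩ := r_bounds j
  obtain ⟨c1, c2⟩ := r_bounds (i + j)
  push_cast at c1 c2
  unfold x
  split_ifs with h
  · have h1 : (r i : ℝ) + r j < r (i + j) := by linarith
    have h2 : (r (i + j) : ℝ) < r i + r j + 2 := by linarith
    have h1' : r i + r j < r (i + j) := by exact_mod_cast h1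
    have h2' : r (i + j) < r i + r j + 2 := by exact_mod_cast h2
    omega
  · push Not at h
    have h1 : (r i : ℝ) + r j < r (i + j) + 1 := by linarith
    have h2 : (r (i + j) : ℝ) < r i + r j + 1 := by linarith
    have h1' : r i + r j < r (i + j) + 1 := by exact_mod_cast h1
    have h2' : r (i + j) < r i + r j + 1 := by exact_mod_cast h2
    omega

lemma x_inj (i j : ℕ) (h : x i = x j) : i = j := by
  unfold x at h
  by_contra hne
  have hirr : Irrational (√2) := irrational_sqrt_two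
  have hd : ((i : ℝ) - j) ≠ 0 := by
    rw [sub_ne_zero]
    exact_mod_cast hne
  apply hirr
  refine ⟨((r i : ℚ) - r j) / ((i : ℚ) - j), ?_⟩
  push_cast
  rw [div_eq_iff hd]
  linarith

lemma u_eq_iff (i j : ℕ) : u i = u j ↔ r (i + 1) - r i = r (j + 1) - r j := by
  unfold u
  rcases r_succ i with h1 | h1 <;> rcases r_succ j with h2 | h2 <;> simp [h1, h2]

lemma factor_eq_iff (n i j : ℕ) : factor u i n = factor u j n ↔
    ∀ t ≤ n, r (i + t) - r i = r (j + t) - r j := by
  unfold factor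
  rw [List.map_inj_left]
  simp only [List.mem_range]
  have hm : ∀ i t, r i ≤ r (i + t) := by
    intro i t
    induction t with
    | zero => exact le_rfl
    | succ t ih => rcases r_succ (i + t) with h | h <;> rw [← add_assoc] <;> omega
  constructor
  · intro h t
    induction t with
    | zero => simp
    | succ t ih =>
      intro ht
      have h1 := ih (by omega)
      have h2 := (u_eq_iff _ _).1 (h t (by omega))
      rw [← add_assoc, ← add_assoc]
      have a1 := hm i t
      have a2 := hm j t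
      have a3 := r_succ (i + t)
      have a4 := r_succ (j + t)
      omega
  · intro h t ht
    rw [u_eq_iff]
    have h1 := h t (by omega)
    have h2 := h (t + 1) (by omega)
    rw [← add_assoc, ← add_assoc] at h2
    have a1 := hm i t
    have a2 := hm j t
    have a3 := r_succ (i + t)
    have a4 := r_succ (j + t)
    omega

/-- the set describing the factor of length `n` at position `i` -/
noncomputable def D (n i : ℕ) : Finset ℕ := {j ∈ Icc 1 n | 1 ≤ x i + x j}

lemma factor_eq_iff_D (n i j : ℕ) : factor u i n = factor u j n ↔ D n i = D n j := by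
  rw [factor_eq_iff]
  constructor
  · intro h
    ext t
    simp only [D, mem_filter, mem_Icc]
    constructor
    · rintro ⟨ht, h1⟩
      refine ⟨ht, ?_⟩
      have h2 := h t ht.2
      rw [r_add, r_add, if_pos h1] at h2
      by_contra hc
      rw [if_neg hc] at h2
      omega
    · rintro ⟨ht, h1⟩
      refine ⟨ht, ?_⟩
      have h2 := h t ht.2
      rw [r_add, r_add, if_pos h1] at h2
      by_contra hc
      rw [if_neg hc] at h2
      omega
  · intro h t ht
    rcases Nat.eq_zero_or_pos t with rfl | ht0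
    · simp
    · have h1 : t ∈ D n i ↔ t ∈ D n j := by rw [h]
      simp only [D, mem_filter, mem_Icc] at h1
      have h2 : (1 ≤ x i + x t) ↔ (1 ≤ x j + x t) := by
        constructor
        · intro h3; exact (h1.1 ⟨⟨ht0, ht⟩, h3⟩).2
        · intro h3; exact (h1.2 ⟨⟨ht0, ht⟩, h3⟩).2
      rw [r_add, r_add]
      simp only [h2]
      omega

lemma small (m : ℕ) : ∃ N : ℕ, x N = (√2 - 1) ^ (2 * m + 1) := by
  have key : ∀ m : ℕ, ∃ Q P : ℕ, (√2 - 1) ^ (2 * m + 1) = (Q : ℝ) * √2 - P := by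
    intro m
    induction m with
    | zero => exact ⟨1, 1, by simp⟩
    | succ m ih =>
      obtain ⟨Q, P, h⟩ := ih
      refine ⟨3 * Q + 2 * P, 4 * Q + 3 * P, ?_⟩
      have h2 : (√2 : ℝ) ^ 2 = 2 := Real.sq_sqrt (by norm_num)
      have e : (√2 - 1) ^ (2 * (m + 1) + 1) = (√2 - 1) ^ (2 * m + 1) * (√2 - 1) ^ 2 := by
        rw [← pow_add]; ring_nf
      rw [e, h]
      push_cast
      linear_combination ((Q : ℝ) * √2 - P - 2 * Q) * h2
  obtain ⟨Q, P, h⟩ := key m
  obtain ⟨c1, c2⟩ := sqrt_two_bounds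
  have hpos : 0 < (√2 - 1) ^ (2 * m + 1) := pow_pos (by linarith) _
  have hlt : (√2 - 1) ^ (2 * m + 1) < 1 := pow_lt_one₀ (by linarith) (by linarith) (by omega)
  refine ⟨Q, ?_⟩
  obtain ⟨a1, a2⟩ := r_bounds Q
  have h1 : (r Q : ℝ) < P + 1 := by linarith
  have h2 : (P : ℝ) < r Q + 1 := by linarith
  have h1' : r Q < P + 1 := by exact_mod_cast h1
  have h2' : P < r Q + 1 := by exact_mod_cast h2
  have h3 : r Q = P := by omega
  unfold x
  rw [h3, h]

lemma exists_rep (n j₀ : ℕ) (h1 : 1 ≤ j₀) (h2 : j₀ ≤ n) :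
    ∃ i, D n i = {j ∈ Icc 1 n | x j₀ ≤ x j} := by
  obtain ⟨c1, c2⟩ := sqrt_two_bounds
  have hx0 : ∀ j, 1 ≤ j → 0 < x j := by
    intro j hj
    rcases (x_nonneg j).lt_or_eq with h | h
    · exact h
    · exfalso
      have h0 : x 0 = 0 := by simp [x, r]
      have := x_inj j 0 (by rw [← h, h0])
      omega
  have ht : Filter.Tendsto (fun m : ℕ => (√2 - 1) ^ (2 * m + 1)) Filter.atTop (nhds 0) := by
    have h3 : Filter.Tendsto (fun m : ℕ => (√2 - 1) ^ m) Filter.atTop (nhds 0) :=
      tendsto_pow_atTop_nhds_zero_of_lt_one (by linarith) (by linarith)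
    exact h3.comp (Filter.tendsto_atTop_mono (fun m => by simp only [id]; omega) Filter.tendsto_id)
  have hev : ∀ j ∈ Icc 1 n, ∀ᶠ m : ℕ in Filter.atTop,
      (√2 - 1) ^ (2 * m + 1) < x j ∧ (x j < x j₀ → (√2 - 1) ^ (2 * m + 1) < x j₀ - x j) := by
    intro j hj
    rw [mem_Icc] at hj
    have e1 : ∀ᶠ m : ℕ in Filter.atTop, (√2 - 1) ^ (2 * m + 1) < x j :=
      ht.eventually (gt_mem_nhds (hx0 j hj.1))
    by_cases hlt : x j < x j₀
    · have e2 : ∀ᶠ m : ℕ in Filter.atTop, (√2 - 1) ^ (2 * m + 1) < x j₀ - x j :=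
        ht.eventually (gt_mem_nhds (by linarith))
      filter_upwards [e1, e2] with m a b
      exact ⟨a, fun _ => b⟩
    · filter_upwards [e1] with m a
      exact ⟨a, fun h => absurd h hlt⟩
  rw [← Filter.eventually_all_finset] at hev
  obtain ⟨m, hm⟩ := hev.exists
  obtain ⟨N, hN⟩ := small m
  rw [← hN] at hm
  have hpos : 0 < x N := by rw [hN]; exact pow_pos (by linarith) _
  have hNn : n < N := by
    by_contra hc
    rcases Nat.eq_zero_or_pos N with h | h
    · rw [h] at hpos
      have h0 : x 0 = 0 := by simp [x, r]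
      linarith
    · have := (hm N (mem_Icc.2 ⟨h, by omega⟩)).1
      linarith
  refine ⟨N - j₀, ?_⟩
  have hj0 := (hm j₀ (mem_Icc.2 ⟨h1, h2⟩)).1
  have hxi : x (N - j₀) = 1 + x N - x j₀ := by
    obtain ⟨a1, a2⟩ := r_bounds (N - j₀)
    have b1 := x_lt_one j₀
    have b2 := x_nonneg j₀
    have e : ((N - j₀ : ℕ) : ℝ) = (N : ℝ) - j₀ := Nat.cast_sub (by omega)
    rw [e] at a1 a2
    unfold x at *
    rw [e]
    have h3 : (r (N - j₀) : ℝ) < (r N : ℝ) - r j₀ := by nlinarith
    have h4 : (r N : ℝ) - r j₀ - 2 < r (N - j₀) := by nlinarith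
    have h3' : (r (N - j₀) : ℤ) < (r N : ℤ) - r j₀ := by exact_mod_cast h3
    have h4' : (r N : ℤ) - r j₀ - 2 < r (N - j₀) := by exact_mod_cast h4
    have h5 : (r (N - j₀) : ℤ) = (r N : ℤ) - r j₀ - 1 := by omega
    have h6 : (r (N - j₀) : ℝ) = (r N : ℝ) - r j₀ - 1 := by exact_mod_cast h5
    rw [h6]
    ring
  unfold D
  apply filter_congr
  intro j hj
  rw [hxi]
  constructor
  · intro h
    by_contra hc
    push Not at hc
    have := (hm j hj).2 hc
    linarith
  · intro h
    linarith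

theorem u_sturmian : Sturmian u := by
  classical
  intro n
  have hex : ∀ j₀ : ℕ, ∃ i, (j₀ = 0 → D n i = ∅) ∧
      (1 ≤ j₀ → j₀ ≤ n → D n i = {j ∈ Icc 1 n | x j₀ ≤ x j}) := by
    intro j₀
    by_cases h : 1 ≤ j₀ ∧ j₀ ≤ n
    · obtain ⟨i, hi⟩ := exists_rep n j₀ h.1 h.2
      exact ⟨i, fun h0 => by omega, fun _ _ => hi⟩
    · refine ⟨0, fun _ => ?_, fun h1 h2 => absurd ⟨h1, h2⟩ h⟩
      rw [D, filter_eq_empty_iff]
      intro j _
      have h0 : x 0 = 0 := by simp [x, r]
      rw [h0]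
      have := x_lt_one j
      linarith
  choose rep hrep0 hrep using hex
  have hF : {w | ∃ i, w = factor u i n} =
      (((range (n + 1)).image (fun j => factor u (rep j) n) : Finset (List (ZMod 2))) :
        Set (List (ZMod 2))) := by
    ext w
    simp only [Set.mem_ofPred_eq, coe_image, coe_range, Set.mem_image, Set.mem_Iio]
    constructor
    · rintro ⟨i, rfl⟩
      rcases (D n i).eq_empty_or_nonempty with h | h
      · refine ⟨0, by omega, ?_⟩
        rw [factor_eq_iff_D, hrep0 0 rfl, h]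
      · obtain ⟨j₀, hj0, hmin⟩ := (D n i).exists_min_image x h
        have hj0' := hj0
        simp only [D, mem_filter, mem_Icc] at hj0'
        refine ⟨j₀, by omega, ?_⟩
        rw [factor_eq_iff_D, hrep j₀ hj0'.1.1 hj0'.1.2]
        ext j
        simp only [mem_filter, D]
        constructor
        · rintro ⟨a, b⟩
          exact ⟨a, by linarith⟩
        · rintro ⟨a, b⟩
          exact ⟨a, hmin j (by simp only [D, mem_filter]; exact ⟨a, b⟩)⟩
    · rintro ⟨j, _, rfl⟩
      exact ⟨_, rfl⟩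
  rw [hF, Set.ncard_coe_finset, card_image_of_injOn, card_range]
  intro a ha b hb hab
  simp only [coe_range, Set.mem_Iio] at ha hb
  simp only at hab
  rw [factor_eq_iff_D] at hab
  rcases Nat.eq_zero_or_pos a with ha0 | ha0 <;> rcases Nat.eq_zero_or_pos b with hb0 | hb0
  · omega
  · exfalso
    rw [hrep0 a ha0, hrep b hb0 (by omega)] at hab
    have : b ∈ (∅ : Finset ℕ) := by
      rw [hab, mem_filter, mem_Icc]
      exact ⟨⟨hb0, by omega⟩, le_rfl⟩
    simp at this
  · exfalso
    rw [hrep0 b hb0, hrep a ha0 (by omega)] at hab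
    have : a ∈ (∅ : Finset ℕ) := by
      rw [← hab, mem_filter, mem_Icc]
      exact ⟨⟨ha0, by omega⟩, le_rfl⟩
    simp at this
  · rw [hrep a ha0 (by omega), hrep b hb0 (by omega)] at hab
    have h1 : a ∈ ({j ∈ Icc 1 n | x b ≤ x j} : Finset ℕ) := by
      rw [← hab, mem_filter, mem_Icc]
      exact ⟨⟨ha0, by omega⟩, le_rfl⟩
    have h2 : b ∈ ({j ∈ Icc 1 n | x a ≤ x j} : Finset ℕ) := by
      rw [hab, mem_filter, mem_Icc]
      exact ⟨⟨hb0, by omega⟩, le_rfl⟩
    rw [mem_filter] at h1 h2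
    exact x_inj a b (le_antisymm h2.2 h1.2)

lemma pals_le : (pals (factor (S^[6] u) 0 13)).length ≤ 13 := by
  decide +kernel

/-- **Negative answer to Q1 of MP_9b64ae_co.** The word `u_i = ⌊(i+1)(√2-1)⌋ - ⌊i(√2-1)⌋` is
Sturmian, and `S^6(u)` is not rich: its prefix of length `13` has fewer than `14` distinct
palindromic factors. -/
theorem result : Sturmian u ∧ palCount (factor (S^[6] u) 0 13) < 13 + 1 ∧
    ¬ ∀ v : ℕ → ZMod 2, Sturmian v → ∀ k : ℕ, 1 ≤ k → Rich (S^[k] v) := by
  have h : palCount (factor (S^[6] u) 0 13) < 13 + 1 :=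
    Nat.lt_succ_of_le ((palCount_le _).trans pals_le)
  refine ⟨u_sturmian, h, fun hall => ?_⟩
  have h2 := hall u u_sturmian 6 (by norm_num) 0 13
  omega

end Pool.Agent.Results.MP_9b64ae_co.SilverMean
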